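import Pool.Agent.H59.LIN.PCP

/-!
The primitive coefficients of the Conway polynomial modulo two.
-/

set_option autoImplicit false

namespace Pool.Agent.Results.MP_559314_gt.ConwayPrimitive

open Pool.Agent.H59.LIN

/-- The Conway polynomial `c` exists and has primitive coefficients `p`, and for every `k ≥ 2`
there is an integer valued Vassiliev invariant `g` of degree at most `2 k - 1` such that
`p_k - g` is even for all knots. -/
theorem result : ∃ (c : (n : ℕ) → Wd n → PowerSeries ℤ) (p : ℕ → (n : ℕ) → Wd n → ℤ),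
    Conway c ∧ PrimCoeff c p ∧ ∀ k, 2 ≤ k → ∃ g : (n : ℕ) → Wd n → ℤ, KInv g ∧
      DegLE g (2 * k - 1) ∧ ∀ n (w : Wd n), Knot w → (2 : ℤ) ∣ p k n w - g n w :=
  PCO.main

end Pool.Agent.Results.MP_559314_gt.ConwayPrimitive
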