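import Pool.Agent.H59.LIN.Fin

/-!
Weight systems which factor through the HOMFLYPT weight systems are induced by Vassiliev invariants
over every commutative ring.
-/

set_option autoImplicit false

namespace Pool.Agent.Results.MP_559314_gt.HomflyptWeightSystems

open Pool.Agent.H59.LIN

/-- Let `R` be a commutative ring and let `W` be an `R`-valued function on the chord diagrams with
`d` chords which factors through the HOMFLYPT weight systems. Then there is a Vassiliev invariant
of knots of degree at most `d` with values in `R` which induces `W`. -/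
theorem result.{u} (R : Type u) [CommRing R] (d : ℕ) (W : CD d → R) (hW : HType W) :
    ∃ v : (n : ℕ) → Wd n → R, KInv v ∧ DegLE v d ∧
      ∀ D : CD d, (∃ (n : ℕ) (w : SWd n), Knot w ∧ Rep w D) ∧
        ∀ (n : ℕ) (w : SWd n), Knot w → Rep w D → ext (v n) [] w = W D := by
  obtain ⟨v, h1, h2, h3⟩ := fin_REA R d W hW
  exact ⟨v, h1, h2, fun D => ⟨fin_REP d D, fun n w => h3 n w D⟩⟩

end Pool.Agent.Results.MP_559314_gt.HomflyptWeightSystems
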