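import Pool.Agent.H63.PK.Fin

/-!
# Realizing weight systems over arbitrary rings by Vassiliev invariants (`MP_559314_gt`)

Lin's question is reduced, prime by prime, to the primitive weight systems.
-/

set_option autoImplicit false

namespace Pool.Agent.Results.MP_559314_gt.PrimitiveWeightSystems

open Pool.Agent.H13.LN Pool.Agent.H63.PK

theorem result (P : Set ℕ) (hP : ∀ p ∈ P, p.Prime) (hne : P.Nonempty) :
    List.TFAE [
      ∀ (R : Type) [CommRing R], (∀ q : ℕ, q.Prime → q ∉ P → IsUnit (q : R)) → Yes R,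
      Yes ℚ ∧ ∀ p ∈ P, Yes (ZMod p),
      ∀ p ∈ P, ∀ d, LiftPI p d,
      Yes ℚ ∧ ∀ p ∈ P, ∀ d, LiftP p d,
      Yes ℚ ∧ ∀ p ∈ P, ∀ (d : ℕ) (x : Ind d), p • x = 0 → x = 0,
      Yes ℚ ∧ ∀ (R : Type) [CommRing R], (∀ q : ℕ, q.Prime → q ∉ P → IsUnit (q : R)) →
        IsPoly R] :=
  final P hP hne

end Pool.Agent.Results.MP_559314_gt.PrimitiveWeightSystems
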