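import Pool.Agent.H13.LN.Fin

/-!
# Realizing weight systems over rings by Vassiliev invariants (`MP_559314_gt`)

Lin's question for all rings in which the primes outside `P` are invertible is equivalent to the
question for the prime fields `ℚ` and `ℤ / p`, `p ∈ P`, and to the rational question together with
the absence of `p`-torsion, `p ∈ P`, in the groups of chord diagrams.
-/

set_option autoImplicit false

namespace Pool.Agent.Results.MP_559314_gt.TorsionCriterion

open Pool.Agent.H13.LN

theorem result (P : Set ℕ) (hP : ∀ p ∈ P, p.Prime) :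
    List.TFAE [
      ∀ (R : Type) [CommRing R], (∀ q : ℕ, q.Prime → q ∉ P → IsUnit (q : R)) → Yes R,
      Yes ℚ ∧ ∀ p ∈ P, Yes (ZMod p),
      Yes ℚ ∧ ∀ (d : ℕ) (x : Chd d), ∀ p ∈ P, p • x = 0 → x = 0] :=
  fin P hP

end Pool.Agent.Results.MP_559314_gt.TorsionCriterion
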